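import Pool.Agent.Y345.Aut.Main

namespace Pool.Agent.Results.MP_3d715f_co.EveryActionInAut

open Finset

/-- `B` is the set of blocks of a 2-(v,k,1) design on the point set `Fin v`: all blocks have
`k` points and any two distinct points lie in exactly one block. -/
def IsBIBD (v k : ℕ) (B : Finset (Finset (Fin v))) : Prop :=
  (∀ b ∈ B, b.card = k) ∧ ∀ x y : Fin v, x ≠ y → ∃! b, b ∈ B ∧ x ∈ b ∧ y ∈ b

/-- The full automorphism group: all permutations of the points that map `B` onto `B`. -/
def autGroup {v : ℕ} (B : Finset (Finset (Fin v))) : Subgroup (Equiv.Perm (Fin v)) where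
  carrier := {σ | B.image (fun b => b.image σ) = B}
  mul_mem' := by
    intro σ τ hσ hτ
    change B.image (fun b => b.image (σ * τ)) = B
    have h1 : (fun b : Finset (Fin v) => b.image (σ * τ)) =
        (fun b : Finset (Fin v) => b.image σ) ∘ (fun b : Finset (Fin v) => b.image τ) := by
      funext b
      simp only [Function.comp_apply, image_image]
      rfl
    rw [h1, ← image_image]
    change B.image (fun b => b.image τ) = B at hτ
    change B.image (fun b => b.image σ) = B at hσ
    rw [hτ, hσ]
  one_mem' := by
    change B.image (fun b => b.image (1 : Equiv.Perm (Fin v))) = B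
    simp
  inv_mem' := by
    intro σ hσ
    change B.image (fun b => b.image σ) = B at hσ
    change B.image (fun b => b.image (σ⁻¹ : Equiv.Perm (Fin v))) = B
    conv_lhs => rw [← hσ]
    rw [image_image]
    have h1 : ((fun b : Finset (Fin v) => b.image (σ⁻¹ : Equiv.Perm (Fin v))) ∘
        fun b : Finset (Fin v) => b.image σ) = id := by
      funext b
      simp only [Function.comp_apply, image_image, id]
      have : ((σ⁻¹ : Equiv.Perm (Fin v)) : Fin v → Fin v) ∘ σ = id := by
        funext x
        simp
      rw [this, image_id]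
    rw [h1, image_id]

theorem mem_autGroup {v : ℕ} (B : Finset (Finset (Fin v))) (σ : Equiv.Perm (Fin v)) :
    σ ∈ autGroup B ↔ B.image (fun b => b.image σ) = B := Iff.rfl

/-- For every `k ≥ 10`, every finite group `G`, every homomorphism `ρ` from `G` to the
permutations of a finite set `Y` and every `N` there are a 2-(v,k,1) design with `v ≥ N`, an
isomorphism `φ` from `G` onto its full automorphism group and an injection `ι` from `Y` into the
points with `φ g (ι y) = ι (ρ g y)`. -/
theorem result.{u, w} (k : ℕ) (hk : 10 ≤ k) (G : Type u) [Group G] [Finite G] (Y : Type w)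
    [Finite Y] (ρ : G →* Equiv.Perm Y) (N : ℕ) :
    ∃ (v : ℕ) (B : Finset (Finset (Fin v))), N ≤ v ∧ k ≤ v ∧ IsBIBD v k B ∧
      ∃ (φ : G ≃* autGroup B) (ι : Y → Fin v), Function.Injective ι ∧
        ∀ g y, (φ g : Equiv.Perm (Fin v)) (ι y) = ι (ρ g y) := by
  classical
  -- a copy of `G` in `Type`
  obtain ⟨n, ⟨e⟩⟩ := Finite.exists_equiv_fin G
  let f : G →* Equiv.Perm (Fin n) :=
    { toFun := fun g => (e.symm.trans (Equiv.mulLeft g)).trans e
      map_one' := by ext x; simp
      map_mul' := fun g h => by ext x; simp }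
  have hf : Function.Injective f := by
    intro g h hgh
    have h1 := congrArg (fun σ : Equiv.Perm (Fin n) => σ (e 1)) hgh
    simpa [f] using h1
  let c : G ≃* f.range := MonoidHom.ofInjective hf
  -- a copy of the action
  obtain ⟨n', ⟨eY⟩⟩ := Finite.exists_equiv_fin Y
  let θ : f.range →* Equiv.Perm (Fin n') :=
    { toFun := fun p => (eY.symm.trans (ρ (c.symm p))).trans eY
      map_one' := by ext x; simp
      map_mul' := fun g h => by ext x; simp }
  let _ : MulAction f.range (Fin n') := MulAction.compHom (Fin n') θ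
  obtain ⟨v, B, hN, hv, hcard, hpair, ψ, ι, hψ, hι, hact, hB⟩ :=
    Pool.Agent.Y345.Aut.main_act k hk f.range (Fin n') N
  have hrange : ψ.range = autGroup B := by
    ext σ
    rw [mem_autGroup, hB, MonoidHom.mem_range]
  refine ⟨v, B, hN, hv, ⟨hcard, hpair⟩,
    (c.trans (MonoidHom.ofInjective hψ)).trans (MulEquiv.subgroupCongr hrange),
    fun y => ι (eY y), fun y y' h => eY.injective (hι h), fun g y => ?_⟩
  have h1 : (((c.trans (MonoidHom.ofInjective hψ)).trans (MulEquiv.subgroupCongr hrange)) g :
      Equiv.Perm (Fin v)) = ψ (c g) := rfl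
  rw [h1, hact]
  congr 1
  change θ (c g) (eY y) = eY (ρ g y)
  simp [θ]

end Pool.Agent.Results.MP_3d715f_co.EveryActionInAut
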